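import Pool.Agent.Work.MP_ae1ff6_bl.All

/-!
# Mapping classes realized by hyperbolic isometries and bounded lengths

`S = 𝔻 / Γ` is a hyperbolic surface, `Γ` a Fuchsian group of the first kind acting on the circle at
infinity; a group of mapping classes of `S` is `G / Γ`, `Γ` normal in the group `G` of homeomorphisms of
the circle. Definitions: `Pool/Agent/Work/MP_ae1ff6_cg/Defs.lean` (`H`, `IsMob`, `FirstKind`, `Axis`,
`Conv`), `Interface2.lean` there (`RealizedW`), `Pool/Agent/Work/MP_ae1ff6_bl/Defs.lean` (`HypMetric`,
`TrLe`, `BdM`, `Bounded`, `Cen`, `DiscreteIn`, `Periodic`) and `Defs2.lean` there (`BoundedL`,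
`Bounded1`, `BoundedL1`).
-/

set_option autoImplicit false

namespace Pool.Agent.Results.MP_ae1ff6_gt.BoundedLengths

open Pool.CG Pool.BL

/-- Let `Γ` be a Fuchsian group of the first kind and `G` a group of homeomorphisms of the circle
which contains `Γ` as a normal subgroup.

(1) If `G / Γ` is realized by isometries of a complete hyperbolic metric, then for some complete
hyperbolic metric each closed geodesic of `S` has images of bounded length under `G / Γ`, and `G / Γ` is
discrete (for a finite set of closed geodesics only finitely many classes fix all of them).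

(2) Conversely, if `G / Γ` is discrete and each closed geodesic `a` of `S` has images of bounded
length for some complete hyperbolic metric, which may depend on `a`, then `G` is a discrete
convergence group.

(3) Let `f` be one mapping class. If it is realized by an isometry of a complete hyperbolic metric,
then for some complete hyperbolic metric and for all closed geodesics `a` the lengths of the
`f ^ n (a)`, `n : ℤ`, are bounded, and `f` has finite order or no closed geodesic is periodic.

(4) If for each closed geodesic `a` of `S` the lengths of the `f ^ n (a)` are bounded for some complete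
hyperbolic metric, which may depend on `a`, and if `f` has finite order or some closed geodesic is
not periodic, then `Γ` and `f` generate a discrete convergence group. -/
theorem result :
    (∀ Γ G : Subgroup H, FirstKind Γ → Γ ≤ G → (∀ g ∈ G, ∀ γ ∈ Γ, g * γ * g⁻¹ ∈ Γ) →
      (RealizedW G → Bounded Γ G ∧ DiscreteIn Γ G) ∧
      (BoundedL Γ G → DiscreteIn Γ G → Conv G) ∧ (Bounded Γ G → BoundedL Γ G)) ∧
    ∀ (Γ : Subgroup H) (f : H), FirstKind Γ → (∀ γ, γ ∈ Γ ↔ f * γ * f⁻¹ ∈ Γ) →
      (RealizedW (Γ ⊔ Subgroup.zpowers f) → Bounded1 Γ f ∧ ((∃ n : ℕ, 0 < n ∧ f ^ n ∈ Γ) ∨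
        ∀ γ ∈ Γ, ∀ p q, Axis γ p q → ¬ Periodic Γ f p q)) ∧
      (BoundedL1 Γ f → ((∃ n : ℕ, 0 < n ∧ f ^ n ∈ Γ) ∨
        ∃ γ ∈ Γ, ∃ p q, Axis γ p q ∧ ¬ Periodic Γ f p q) → Conv (Γ ⊔ Subgroup.zpowers f)) :=
  ⟨fun Γ G hΓ hG hn => ⟨(bl Γ G hΓ hG hn).1, (bl Γ G hΓ hG hn).2, boundedL_of Γ G⟩, bl1⟩

end Pool.Agent.Results.MP_ae1ff6_gt.BoundedLengths
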