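import Pool.Agent.Work.MP_ae1ff6_gc.AllG

/-!
# Mapping classes realized by hyperbolic isometries and invariant geodesic currents

`S = 𝔻 / Γ` is a hyperbolic surface, `Γ` a Fuchsian group of the first kind acting on the circle at
infinity; a group of mapping classes of `S` is `G / Γ`, `Γ` normal in the group `G` of homeomorphisms of
the circle. Definitions: `Pool/Agent/Work/MP_ae1ff6_cg/Defs.lean` (`H`, `IsMob`, `FirstKind`, `Link`,
`Axis`, `Conv`), `Interface2.lean` there (`RealizedW`), and `Pool/Agent/Work/MP_ae1ff6_gc/Defs.lean`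
(`Current`, `Fixes`, `Scales`, `FullSupport`, `Filling`, `SelfDisplaces`, `OneDisplaces`),
`Pool/Agent/Work/MP_ae1ff6_gc/B_LOC.lean` (`PermutesFilling`).
-/

set_option autoImplicit false

namespace Pool.Agent.Results.MP_ae1ff6_gt.InvariantCurrents

open Pool.CG Pool.GC MeasureTheory
open scoped ENNReal

/-- Let `Γ` be a Fuchsian group of the first kind and `G` a group of homeomorphisms of the circle
which contains `Γ` as a normal subgroup. The following are equivalent: (i) `G` is a discrete
convergence group (it acts properly discontinuously on the triples of distinct points); (ii) `G`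
preserves a current of full support; (iii) `G` preserves a filling current up to positive factors;
(iv) each closed geodesic `a` of `S` is mapped to a geodesic which crosses `a` by finitely many classes in
`G / Γ` only. They hold if `G` permutes a locally finite filling set of geodesics, and if `G / Γ` is
realized by isometries of a complete hyperbolic metric.

Let `f` be one mapping class. The following are equivalent: `f` has finite order or for each closed
geodesic `a` the geodesic of `f ^ n (a)` crosses `a` only for finitely many integers `n`; the group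
generated by `Γ` and `f` is a discrete convergence group; `f` fixes a geodesic current of `S` of full
support; `f` fixes a filling geodesic current of `S` up to a positive factor. -/
theorem result :
    (∀ Γ G : Subgroup H, FirstKind Γ → Γ ≤ G → (∀ g ∈ G, ∀ γ ∈ Γ, g * γ * g⁻¹ ∈ Γ) →
      (Conv G ↔ ∃ μ, Current μ ∧ FullSupport μ ∧ Fixes G μ) ∧
      (Conv G ↔ ∃ μ, Current μ ∧ Filling μ ∧ Scales G μ) ∧
      (Conv G ↔ SelfDisplaces Γ G) ∧
      (∀ O : Set (Circle × Circle), PermutesFilling G O → Conv G) ∧
      (RealizedW G → Conv G)) ∧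
    ∀ (Γ : Subgroup H) (f : H), FirstKind Γ → (∀ γ, γ ∈ Γ ↔ f * γ * f⁻¹ ∈ Γ) →
      (OneDisplaces Γ f ↔ Conv (Γ ⊔ Subgroup.zpowers f)) ∧
      (OneDisplaces Γ f ↔ ∃ μ, Current μ ∧ FullSupport μ ∧ Fixes Γ μ ∧ μ.map (Prod.map f f) = μ) ∧
      (OneDisplaces Γ f ↔ ∃ μ, Current μ ∧ Filling μ ∧ Fixes Γ μ ∧
        ∃ c : ℝ≥0∞, c ≠ 0 ∧ c ≠ ∞ ∧ μ.map (Prod.map f f) = c • μ) :=
  ⟨fun Γ G hΓ hG hn => ⟨(gcg Γ G hΓ hG hn).1, (gcg Γ G hΓ hG hn).2.1, (gcg Γ G hΓ hG hn).2.2,
    fun O h => loc Γ G hΓ hG hn O h, rl2 Γ G hΓ hG hn⟩, gcg1⟩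

end Pool.Agent.Results.MP_ae1ff6_gt.InvariantCurrents
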