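import Pool.Agent.Work.MP_ae1ff6_tz.Final

/-!
# Mapping classes realized by hyperbolic isometries

`S = 𝔻 / Γ` is a hyperbolic surface of infinite type: `Γ` is a torsion free Fuchsian group of the first kind,
acting on the circle at infinity, and `Γ` is not finitely generated. A mapping class of `S` is given by its
boundary map `f`, a homeomorphism of the circle which normalises `Γ`. Definitions:
`Pool/Agent/Work/MP_ae1ff6_cg/Defs.lean` (`H`, `IsMob`, `FirstKind`, `Link`, `Axis`), `Interface2.lean` there
(`RealizedW`), `Pool/Agent/Work/MP_ae1ff6_ar/Defs.lean` (`Ccw`, `Ori`) and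
`Pool/Agent/Work/MP_ae1ff6_sh/Mono.lean` (`RealizedM`).
-/

set_option autoImplicit false

namespace Pool.Agent.Results.MP_ae1ff6_gt.IsometricClasses

open Pool.CG Pool.AR Pool.SH

/-- Let `Γ` be a torsion free Fuchsian group of the first kind which is not finitely generated, and let `f` be
an orientation preserving homeomorphism of the circle which normalises `Γ`. The mapping class of `f` is
realized by an isometry of a complete hyperbolic metric on the surface if and only if it has finite order or
each closed geodesic `a` of `S` is crossed by `f ^ n (a)` only for finitely many integers `n`. The same holds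
for the weaker notion of realization `RealizedW`, in which the boundary map `π` of the marking need not be
monotone. -/
theorem result :
    ∀ (Γ : Subgroup H) (f : H), FirstKind Γ →
      (∀ γ ∈ Γ, ∀ n : ℕ, 0 < n → γ ^ n = 1 → γ = 1) → ¬ Group.FG Γ → Ori f →
      (∀ γ, γ ∈ Γ ↔ f * γ * f⁻¹ ∈ Γ) →
      (RealizedM (Γ ⊔ Subgroup.zpowers f) ↔ (∃ n : ℕ, 0 < n ∧ f ^ n ∈ Γ) ∨
        ∀ γ ∈ Γ, ∀ p q : Circle, Axis γ p q →
          {n : ℤ | ∃ κ ∈ Γ, Link ((κ * f ^ n) p) ((κ * f ^ n) q) p q}.Finite) ∧
      (RealizedW (Γ ⊔ Subgroup.zpowers f) ↔ (∃ n : ℕ, 0 < n ∧ f ^ n ∈ Γ) ∨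
        ∀ γ ∈ Γ, ∀ p q : Circle, Axis γ p q →
          {n : ℤ | ∃ κ ∈ Γ, Link ((κ * f ^ n) p) ((κ * f ^ n) q) p q}.Finite) :=
  Pool.TZ.final

end Pool.Agent.Results.MP_ae1ff6_gt.IsometricClasses
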