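import Pool.Agent.Work.MP_ae1ff6_ar.Final3

/-!
# Asymptotically rigid mapping classes and hyperbolic isometries

`S = 𝔻 / Γ` is a hyperbolic surface, `Γ` a Fuchsian group of the first kind acting on the circle at
infinity; a group of mapping classes of `S` is `G / Γ`, `Γ` normal in the group `G` of orientation
preserving homeomorphisms of the circle. Definitions: `Pool/Agent/Work/MP_ae1ff6_cg/Defs.lean` (`H`,
`IsMob`, `FirstKind`, `Link`, `Axis`, `Meets`, `Conv`, `Realized`), `Pool/Agent/Work/MP_ae1ff6_gc/Defs.lean`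
(`SelfDisplaces`), `Pool/Agent/Work/MP_ae1ff6_ar/Defs.lean` (`Ccw`, `Ori`, `Tri`, `Keeps`, `IsCusp`,
`FinCl`, `RigidBy`, `DispT`, `OneEnd`, `cusp`, `IsModular`, `Sys`),
`Pool/Agent/Work/MP_ae1ff6_ar/Defs2.lean` (`Curves`, `Touch`, `DispF`),
`Pool/Agent/Work/MP_ae1ff6_ar/Final3.lean` (`limT`, `limG`) and
`Pool/Agent/Work/MP_ae1ff6_cg/Interface2.lean` (`RealizedW`).
-/

set_option autoImplicit false

namespace Pool.Agent.Results.MP_ae1ff6_gt.RigidClasses

open Pool.CG Pool.AR

/-- (1) Let `O` be a locally finite filling system of closed geodesics of the surface `S = 𝔻 / Γ` and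
`G / Γ` a finitely generated group of orientation preserving mapping classes whose generators `s` are
asymptotically rigid: `s` and `s⁻¹` map all curves of `O` outside of a finite set `F` to curves of
`O`. Then `G` is a discrete convergence group if and only if for each `a` in `Touch O F` (the curves in
`F` and the curves of `O` which cross them) and each `b` in `F` only finitely many classes map `a` to a
curve which crosses or is equal to `b`: these are finitely many pairs of curves.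

(2) For one asymptotically rigid class `f` of infinite order: `Γ` and `f` generate a discrete
convergence group if and only if for these finitely many pairs `a`, `b` the curve `f ^ n (a)` crosses or
is equal to `b` only for finitely many integers `n`.

(3) If the system of curves is an ideal triangulation `T / Γ` of `S` (with all vertices at the
punctures of `S`) and `f` is an asymptotically rigid class of infinite order, then the following are
equivalent: `f` is realized by an isometry of a complete hyperbolic metric of the first kind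
(`Realized`); `f` is realized by an isometry of a complete hyperbolic metric (`RealizedW`); `Γ` and `f`
generate a discrete convergence group; for each closed geodesic `a` of `S` the geodesic of `f ^ n (a)` crosses `a`
only for finitely many `n`; for all arcs `a`, `b` of `T / Γ` the arc `f ^ n (a)` crosses or is equal to
`b` only for finitely many `n`; the same for the finitely many arcs `a`, `b` in `F`; `f` preserves an
ideal triangulation of `S`; `Γ` and `f` generate a group which is conjugate to a subgroup of the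
modular group `PSL(2, ℤ)`; the arcs which are mapped to arcs of `T / Γ` by all `f ^ n`, `n` large, form an
ideal triangulation of `S`.

(4) (3) holds for all infinite finitely generated groups `G / Γ` of orientation preserving mapping
classes which have exactly one end and are generated by asymptotically rigid classes (in the last
condition: the arcs which are mapped to arcs of `T / Γ` by all but finitely many classes). -/
theorem result :
    (∀ (Γ G : Subgroup H) (O F : Set (Circle × Circle)) (S : Set H), FirstKind Γ → Γ ≤ G →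
      (∀ g ∈ G, ∀ γ ∈ Γ, g * γ * g⁻¹ ∈ Γ) → (∀ g ∈ G, Ori g) → Curves Γ O → S.Finite → S ⊆ G →
      G ≤ Γ ⊔ Subgroup.closure S → F.Finite → F ⊆ O → (∀ s ∈ S, RigidBy Γ O F s) →
      (Conv G ↔ DispT Γ G O) ∧ (Conv G ↔ DispF Γ G O F)) ∧
    (∀ (Γ : Subgroup H) (f : H) (O F : Set (Circle × Circle)), FirstKind Γ → Ori f →
      (∀ γ, γ ∈ Γ ↔ f * γ * f⁻¹ ∈ Γ) → (∀ n : ℕ, 0 < n → f ^ n ∉ Γ) → Curves Γ O → F.Finite →
      F ⊆ O → RigidBy Γ O F f →
      (Conv (Γ ⊔ Subgroup.zpowers f) ↔ ∀ a ∈ Touch O F, ∀ b ∈ F,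
        {n : ℤ | ∃ κ ∈ Γ, Meets (κ * f ^ n) a.1 a.2 b.1 b.2}.Finite)) ∧
    (∀ (Γ : Subgroup H) (f : H) (T F : Set (Circle × Circle)), FirstKind Γ → Tri T → Keeps Γ T →
      (∀ x y, (x, y) ∈ T → IsCusp Γ x) → Ori f → (∀ γ, γ ∈ Γ ↔ f * γ * f⁻¹ ∈ Γ) →
      (∀ n : ℕ, 0 < n → f ^ n ∉ Γ) → F.Finite → F ⊆ T → RigidBy Γ T F f →
      (Realized (Γ ⊔ Subgroup.zpowers f) ↔ RealizedW (Γ ⊔ Subgroup.zpowers f)) ∧
      (Realized (Γ ⊔ Subgroup.zpowers f) ↔ Conv (Γ ⊔ Subgroup.zpowers f)) ∧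
      (Realized (Γ ⊔ Subgroup.zpowers f) ↔ ∀ γ ∈ Γ, ∀ p q : Circle, Axis γ p q →
        {n : ℤ | ∃ κ ∈ Γ, Link ((κ * f ^ n) p) ((κ * f ^ n) q) p q}.Finite) ∧
      (Realized (Γ ⊔ Subgroup.zpowers f) ↔ ∀ x y z w, (x, y) ∈ T → (z, w) ∈ T →
        {n : ℤ | ∃ κ ∈ Γ, Meets (κ * f ^ n) x y z w}.Finite) ∧
      (Realized (Γ ⊔ Subgroup.zpowers f) ↔ ∀ x y z w, (x, y) ∈ F → (z, w) ∈ F →
        {n : ℤ | ∃ κ ∈ Γ, Meets (κ * f ^ n) x y z w}.Finite) ∧
      (Realized (Γ ⊔ Subgroup.zpowers f) ↔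
        ∃ T', Tri T' ∧ Keeps Γ T' ∧ ∀ x y, (x, y) ∈ T' ↔ (f x, f y) ∈ T') ∧
      (Realized (Γ ⊔ Subgroup.zpowers f) ↔ ∃ h : H, ∀ g ∈ Γ ⊔ Subgroup.zpowers f,
        IsMob (h * g * h⁻¹) ∧ IsModular (h * g * h⁻¹)) ∧
      (Realized (Γ ⊔ Subgroup.zpowers f) ↔ Tri (limT f T))) ∧
    ∀ (Γ G : Subgroup H) (T F : Set (Circle × Circle)) (S : Set H), Sys Γ G T → OneEnd Γ G S →
      F.Finite → F ⊆ T → (∀ s ∈ S, RigidBy Γ T F s) →
      (Realized G ↔ RealizedW G) ∧ (Realized G ↔ Conv G) ∧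
      (Realized G ↔ Pool.GC.SelfDisplaces Γ G) ∧
      (Realized G ↔ DispT Γ G T) ∧ (Realized G ↔ DispT Γ G F) ∧
      (Realized G ↔ ∃ T', Tri T' ∧ Keeps G T') ∧
      (Realized G ↔ ∃ h : H, ∀ g ∈ G, IsMob (h * g * h⁻¹) ∧ IsModular (h * g * h⁻¹)) ∧
      (Realized G ↔ Tri (limG Γ G T)) := by
  refine ⟨go, go1, fun Γ f T F h1 h2 h3 h4 h5 h6 h7 h8 h9 h10 => ?_,
    fun Γ G T F S h1 h2 h3 h4 h5 => ?_⟩
  · obtain ⟨r1, r2, r3, r4, r5, r6⟩ := ar1 Γ f T F h1 h2 h3 h4 h5 h6 h7 h8 h9 h10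
    exact ⟨⟨blk_EMB _, fun h => r1.2 (rl2 Γ _ h1 le_sup_left (q_ZDR Γ f h6 h7).1 h)⟩,
      r1, r2, r3, r4, r5, r6, ar1_lim Γ f T F h1 h2 h3 h4 h5 h6 h7 h8 h9 h10⟩
  · obtain ⟨r1, r2, r3, r4, r5, r6⟩ := arg Γ G T F S h1 h2 h3 h4 h5
    exact ⟨⟨blk_EMB _, fun h => r1.2 (rl2 Γ G h1.fk h1.le h1.nor h)⟩,
      r1, r2, r3, r4, r5, r6, arg_lim Γ G T F S h1 h2 h3 h4 h5⟩

end Pool.Agent.Results.MP_ae1ff6_gt.RigidClasses
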